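import Mathlib
import Pool.Agent.H16.EDPProof

set_option autoImplicit false

namespace Pool.Agent.Results.MP_726576_nt.SqMinusOne

open Pool.Agent.H16.EDP

theorem result : BadSet {k : ℕ | ∃ n : ℕ, 1 ≤ n ∧ (k : ℤ) = (n : ℤ) ^ 2 - 1 ∧ 1 ≤ k} :=
  bad_sq_sub_one

end Pool.Agent.Results.MP_726576_nt.SqMinusOne
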