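import Mathlib
import Pool.Agent.H16.EDPProof

set_option autoImplicit false

namespace Pool.Agent.Results.MP_726576_nt.SqPlusOne

open Pool.Agent.H16.EDP

theorem result : BadSet {k : ℕ | ∃ n : ℕ, 1 ≤ n ∧ k = n ^ 2 + 1} :=
  bad_sq_add_one

end Pool.Agent.Results.MP_726576_nt.SqPlusOne
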